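import Pool.Agent.Lib.MP_e6fef2_lc.H53.Kctc

/-!
# The size of the tree forcing
-/

universe u

open Cardinal

namespace Pool.Agent.Lib.MP_e6fef2_lc.H96

theorem tcard (hidx : IdxStatement.{u}) (κ : Cardinal.{u}) (I : Type u) [LinearOrder I]
    [WellFoundedLT I] (hI : Idx κ I) : #(TC I) ≤ κ := by
  obtain ⟨-, -, -, hW, hsub, -⟩ := hidx.2.1 κ I hI
  have h0 : ℵ₀ ≤ κ := hI.unc.le
  have h2 : (2 : Cardinal.{u}) < κ := (Cardinal.natCast_lt_aleph0 (n := 2)).trans hI.unc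
  have hWB : #(W.{u} → Bool) < κ := by
    rw [← Cardinal.mk_congr (Equiv.arrowCongr (Equiv.refl W.{u}) Equiv.ulift.{u, 0}),
      ← Cardinal.power_def]
    refine H53.pow_lt h0 hI.lim ?_ hW
    simpa using h2
  have hS : #(Set (W.{u} → Bool)) < κ := by
    rw [Cardinal.mk_set]
    exact hI.lim _ hWB
  have hWS : #(W.{u} → Set (W.{u} → Bool)) < κ := by
    rw [← Cardinal.power_def]
    exact H53.pow_lt h0 hI.lim hS hW
  have hIB : #(I × (W.{u} → Bool)) ≤ κ := by
    rw [Cardinal.mk_prod, Cardinal.lift_id, Cardinal.lift_id, hI.card]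
    exact Cardinal.mul_le_of_le h0 le_rfl hWB.le
  let g : TC I → W.{u} × (W.{u} → Set (W.{u} → Bool)) ×
      {Z : Set (I × (W.{u} → Bool)) // #Z < κ} := fun s =>
    (s.ht, s.T, ⟨(fun x => (x, s.f x)) '' s.a,
      ((Cardinal.le_aleph0_iff_set_countable.2 (s.a_ctbl.image _)).trans_lt hI.unc)⟩)
  have hg : Function.Injective g := by
    intro s t h
    simp only [g, Prod.mk.injEq, Subtype.mk.injEq] at h
    obtain ⟨h1, h2, h3⟩ := h
    have key : ∀ x, x ∈ s.a → x ∈ t.a ∧ t.f x = s.f x := by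
      intro x hx
      have : (x, s.f x) ∈ (fun x => (x, t.f x)) '' t.a := h3 ▸ ⟨x, hx, rfl⟩
      obtain ⟨y, hy, hyx⟩ := this
      simp only [Prod.mk.injEq] at hyx
      obtain ⟨rfl, hyx⟩ := hyx
      exact ⟨hy, hyx⟩
    have key' : ∀ x, x ∈ t.a → x ∈ s.a := by
      intro x hx
      have : (x, t.f x) ∈ (fun x => (x, s.f x)) '' s.a := h3 ▸ ⟨x, hx, rfl⟩
      obtain ⟨y, hy, hyx⟩ := this
      simp only [Prod.mk.injEq] at hyx
      obtain ⟨rfl, hyx⟩ := hyx
      exact hy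
    refine TC.ext h1 h2 (Set.Subset.antisymm (fun x hx => (key x hx).1) key') ?_
    funext x
    by_cases hx : x ∈ s.a
    · exact (key x hx).2.symm
    · rw [s.f_out x hx, t.f_out x (fun h => hx (key' x h))]
  refine (Cardinal.mk_le_of_injective hg).trans ?_
  rw [Cardinal.mk_prod, Cardinal.mk_prod, Cardinal.lift_id, Cardinal.lift_id, Cardinal.lift_id,
    Cardinal.lift_id]
  exact Cardinal.mul_le_of_le h0 hW.le (Cardinal.mul_le_of_le h0 hWS.le (hsub _ hIB))

end Pool.Agent.Lib.MP_e6fef2_lc.H96
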